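import Pool.Agent.L0h44.LC.Stm2
import Pool.Agent.Helper514.IoD

/-!
# Project LC, module BD3: no nonempty open part of the boundary of a manifold lies in a simplicial
complex of dimension 2
-/

set_option autoImplicit false

namespace Pool.Agent.L0h66.LC

open Finset Pool.Agent.H933R3 Topology Metric Pool.Agent.L0h44.LC

/-- invariance of domain, for maps on a closed ball -/
theorem iod {m : ℕ} (x0 : EuclideanSpace ℝ (Fin m)) {r : ℝ} (hr : 0 < r)
    (c : closedBall x0 r → EuclideanSpace ℝ (Fin m)) (hc : Continuous c)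
    (hi : Function.Injective c) : Set.range c ∈ 𝓝 (c ⟨x0, mem_closedBall_self hr.le⟩) := by
  classical
  set f : EuclideanSpace ℝ (Fin m) → EuclideanSpace ℝ (Fin m) := fun y =>
    if h : y ∈ closedBall x0 r then c ⟨y, h⟩ else 0 with hf
  have hfe : ∀ y (h : y ∈ closedBall x0 r), f y = c ⟨y, h⟩ := fun y h => dif_pos h
  have hcf : ContinuousOn f (closedBall x0 r) := by
    rw [continuousOn_iff_continuous_domRestrict]
    have h1 : (closedBall x0 r).domRestrict f = c := by
      funext y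
      exact hfe y y.2
    rw [h1]
    exact hc
  have hif : Set.InjOn f (closedBall x0 r) := by
    intro a ha b hb hab
    rw [hfe a ha, hfe b hb] at hab
    exact congrArg Subtype.val (hi hab)
  have h2 := Pool.Agent.Helper514.IoD.image_mem_nhds f x0 r hr hcf hif
  rw [hfe x0 (mem_closedBall_self hr.le)] at h2
  refine Filter.mem_of_superset h2 ?_
  rintro _ ⟨y, hy, rfl⟩
  exact ⟨⟨y, hy⟩, (hfe y hy).symm⟩

/-- a half space is not a neighbourhood of a point of its boundary -/
theorem not_nhds {m : ℕ} (i : Fin m) (x : EuclideanSpace ℝ (Fin m)) (hx : x i = 0)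
    (s : Set (EuclideanSpace ℝ (Fin m))) (hs : ∀ y ∈ s, 0 ≤ y i) : s ∉ 𝓝 x := by
  intro h
  have h1 : Continuous (fun t : ℝ => x - t • EuclideanSpace.single i (1 : ℝ)) := by fun_prop
  have h2 : (fun t : ℝ => x - t • EuclideanSpace.single i (1 : ℝ)) ⁻¹' s ∈ 𝓝 (0 : ℝ) := by
    apply h1.continuousAt
    simpa using h
  obtain ⟨δ, hδ, hb⟩ := Metric.mem_nhds_iff.1 h2
  have h3 : (δ / 2 : ℝ) ∈ ball (0 : ℝ) δ := by
    rw [mem_ball, dist_zero_right, Real.norm_of_nonneg (by positivity)]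
    linarith
  have h4 := hs _ (hb h3)
  simp [hx] at h4
  linarith

/-- the points with a chart to the interior of the half space -/
theorem not_bd {X : Type} [TopologicalSpace X] {U : Set X} (hU : IsOpen U) {W : Set Half}
    (hW : IsOpen W) (e : U ≃ₜ W) (q : U) (hq : 0 < (e q).1.1 0) : (q : X) ∉ TopBd X := by
  intro hbd
  apply hbd
  refine ⟨{x | ∃ h : x ∈ U, 0 < (e ⟨x, h⟩).1.1 0}, ?_, ⟨q.2, hq⟩,
    {y | ∃ h0 : 0 < y 0, (⟨y, h0.le⟩ : Half) ∈ W}, ?_, ⟨?_⟩⟩
  · have h1 : IsOpen {x : U | 0 < (e x).1.1 0} := by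
      refine isOpen_lt continuous_const ?_
      exact (by fun_prop : Continuous fun y : EuclideanSpace ℝ (Fin 4) => y 0).comp
        (continuous_subtype_val.comp (continuous_subtype_val.comp e.continuous))
    have h2 := hU.isOpenMap_subtype_val _ h1
    convert h2 using 1
    ext x
    constructor
    · rintro ⟨h, h3⟩
      exact ⟨⟨x, h⟩, h3, rfl⟩
    · rintro ⟨x, h3, rfl⟩
      exact ⟨x.2, h3⟩
  · obtain ⟨V, hV, hVW⟩ := isOpen_induced_iff.1 hW
    have h1 : {y : EuclideanSpace ℝ (Fin 4) | ∃ h0 : 0 < y 0, (⟨y, h0.le⟩ : Half) ∈ W} =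
        {y | 0 < y 0} ∩ V := by
      ext y
      constructor
      · rintro ⟨h0, h⟩
        rw [← hVW] at h
        exact ⟨h0, h⟩
      · rintro ⟨h0, h⟩
        refine ⟨h0, ?_⟩
        rw [← hVW]
        exact h
    rw [h1]
    exact (isOpen_lt continuous_const (by fun_prop)).inter hV
  · exact
      { toFun := fun x => ⟨(e ⟨x.1, x.2.1⟩).1.1, x.2.2, (e ⟨x.1, x.2.1⟩).2⟩
        invFun := fun y => ⟨(e.symm ⟨⟨y.1, y.2.1.le⟩, y.2.2⟩).1,
          (e.symm ⟨⟨y.1, y.2.1.le⟩, y.2.2⟩).2, by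
            rw [Subtype.coe_eta, e.apply_symm_apply]
            exact y.2.1⟩
        left_inv := by
          intro x
          apply Subtype.ext
          show (e.symm ⟨⟨(e ⟨x.1, x.2.1⟩).1.1, _⟩, _⟩).1 = x.1
          have h1 : (⟨⟨(e ⟨x.1, x.2.1⟩).1.1, x.2.2.le⟩, (e ⟨x.1, x.2.1⟩).2⟩ : W) =
              e ⟨x.1, x.2.1⟩ := rfl
          rw [h1, e.symm_apply_apply]
        right_inv := by
          intro y
          apply Subtype.ext
          show (e ⟨(e.symm ⟨⟨y.1, _⟩, _⟩).1, _⟩).1.1 = y.1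
          rw [Subtype.coe_eta, e.apply_symm_apply]
        continuous_toFun := by
          refine Continuous.subtype_mk ?_ _
          exact continuous_subtype_val.comp (continuous_subtype_val.comp (e.continuous.comp
            (Continuous.subtype_mk continuous_subtype_val _)))
        continuous_invFun := by
          refine Continuous.subtype_mk ?_ _
          exact continuous_subtype_val.comp (e.symm.continuous.comp
            (Continuous.subtype_mk (Continuous.subtype_mk continuous_subtype_val _) _)) }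

/-- the points with a chart to the boundary of the half space -/
theorem bd_of {X : Type} [TopologicalSpace X] {U : Set X} (hU : IsOpen U) {W : Set Half}
    (e : U ≃ₜ W) (q : U) (hq : (e q).1.1 0 = 0) : (q : X) ∈ TopBd X := by
  rintro ⟨U', hU', hqU', W', hW', ⟨g⟩⟩
  set y0 : W' := g ⟨q, hqU'⟩ with hy0
  -- a ball
  have hopen : IsOpen {y : EuclideanSpace ℝ (Fin 4) | ∃ h : y ∈ W', (g.symm ⟨y, h⟩).1 ∈ U} := by
    have h1 : IsOpen {y : W' | (g.symm y).1 ∈ U} :=
      hU.preimage (continuous_subtype_val.comp g.symm.continuous)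
    have h2 := hW'.isOpenMap_subtype_val _ h1
    convert h2 using 1
    ext x
    constructor
    · rintro ⟨h, h3⟩
      exact ⟨⟨x, h⟩, h3, rfl⟩
    · rintro ⟨x, h3, rfl⟩
      exact ⟨x.2, h3⟩
  obtain ⟨ε, hε, hball⟩ := Metric.isOpen_iff.1 hopen y0 ⟨y0.2, by
    rw [Subtype.coe_eta, hy0, g.symm_apply_apply]
    exact q.2⟩
  have hcb : ∀ y ∈ closedBall (y0 : EuclideanSpace ℝ (Fin 4)) (ε / 2),
      ∃ h : y ∈ W', (g.symm ⟨y, h⟩).1 ∈ U := by
    intro y hy
    apply hball
    rw [mem_closedBall] at hy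
    rw [mem_ball]
    linarith
  have hr : 0 < ε / 2 := by positivity
  set c : closedBall (y0 : EuclideanSpace ℝ (Fin 4)) (ε / 2) → EuclideanSpace ℝ (Fin 4) :=
    fun y => (e ⟨(g.symm ⟨y.1, (hcb y.1 y.2).1⟩).1, (hcb y.1 y.2).2⟩).1.1 with hc
  have hcc : Continuous c := by
    refine continuous_subtype_val.comp (continuous_subtype_val.comp (e.continuous.comp ?_))
    refine Continuous.subtype_mk ?_ _
    exact continuous_subtype_val.comp (g.symm.continuous.comp
      (Continuous.subtype_mk continuous_subtype_val _))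
  have hci : Function.Injective c := by
    intro y y' hyy
    have h1 := e.injective (Subtype.ext (Subtype.ext hyy))
    have h0 : (g.symm ⟨y.1, (hcb y.1 y.2).1⟩).1 = (g.symm ⟨y'.1, (hcb y'.1 y'.2).1⟩).1 :=
      Subtype.mk.inj h1
    have h2 := g.symm.injective (Subtype.ext h0)
    exact Subtype.ext (Subtype.mk.inj h2)
  have h1 := iod (y0 : EuclideanSpace ℝ (Fin 4)) hr c hcc hci
  refine not_nhds 0 _ ?_ _ ?_ h1
  · show (e ⟨(g.symm ⟨y0.1, _⟩).1, _⟩).1.1 0 = 0
    have h2 : (⟨(g.symm ⟨y0.1, (hcb y0.1 (mem_closedBall_self hr.le)).1⟩).1,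
        (hcb y0.1 (mem_closedBall_self hr.le)).2⟩ : U) = q := by
      apply Subtype.ext
      show (g.symm ⟨y0.1, _⟩).1 = q.1
      rw [Subtype.coe_eta, hy0, g.symm_apply_apply]
    rw [h2]
    exact hq
  · rintro _ ⟨y, rfl⟩
    exact (e ⟨(g.symm ⟨y.1, (hcb y.1 y.2).1⟩).1, (hcb y.1 y.2).2⟩).1.2

/-- the hyperplane `y 0 = 0` -/
noncomputable def emb (z : EuclideanSpace ℝ (Fin 3)) : EuclideanSpace ℝ (Fin 4) :=
  WithLp.toLp 2 ![0, z 0, z 1, z 2]

theorem emb_cont : Continuous emb := by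
  unfold emb
  refine (PiLp.continuous_toLp 2 _).comp ?_
  refine continuous_pi fun i => ?_
  fin_cases i
  · exact continuous_const
  · show Continuous fun z : EuclideanSpace ℝ (Fin 3) => z 0
    fun_prop
  · show Continuous fun z : EuclideanSpace ℝ (Fin 3) => z 1
    fun_prop
  · show Continuous fun z : EuclideanSpace ℝ (Fin 3) => z 2
    fun_prop

theorem emb_inj : Function.Injective emb := by
  intro z z' h
  have h1 : ∀ i, emb z i = emb z' i := fun i => by rw [h]
  ext i
  fin_cases i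
  · exact h1 1
  · exact h1 2
  · exact h1 3

theorem emb_zero : emb 0 = 0 := by
  ext i
  fin_cases i <;> rfl

/-- no continuous injection of `ℝ³` into a complex of dimension 2 -/
theorem no_inj {n : ℕ} {K : Finset (Finset (Fin n))}
    (ψ : EuclideanSpace ℝ (Fin 3) → (Fin n → ℝ)) (hψ : Continuous ψ) (hi : Function.Injective ψ)
    (hsum : ∀ z, ∑ i, ψ z i = 1)
    (hK : ∀ z, ∃ A ∈ K, A.card ≤ 3 ∧ ∀ i, i ∉ A → ψ z i = 0) : False := by
  classical
  obtain ⟨A, hA⟩ := nonempty_interior_of_iUnion_of_closed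
    (f := fun A : {A // A ∈ K ∧ A.card ≤ 3} => {z | ∀ i, i ∉ A.1 → ψ z i = 0})
    (fun A => by
      have : {z | ∀ i, i ∉ A.1 → ψ z i = 0} = ⋂ i, {z | i ∉ A.1 → ψ z i = 0} := by
        ext z
        simp
      rw [this]
      refine isClosed_iInter fun i => ?_
      by_cases hi : i ∈ A.1
      · simp [hi]
      · simp only [hi, not_false_eq_true, true_implies]
        exact isClosed_eq ((continuous_apply i).comp hψ) continuous_const)
    (by
      ext z
      simp only [Set.mem_iUnion, Set.mem_univ, iff_true]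
      obtain ⟨A, h1, h2, h3⟩ := hK z
      exact ⟨⟨A, h1, h2⟩, h3⟩)
  obtain ⟨z0, hz0⟩ := hA
  obtain ⟨ε, hε, hball⟩ := Metric.isOpen_iff.1 isOpen_interior z0 hz0
  have hcb : ∀ y ∈ closedBall z0 (ε / 2), ∀ i, i ∉ A.1 → ψ y i = 0 := by
    intro y hy
    have : y ∈ ball z0 ε := by
      rw [mem_closedBall] at hy
      rw [mem_ball]
      linarith
    exact interior_subset (hball this)
  have hr : 0 < ε / 2 := by positivity
  -- three vertices
  obtain ⟨i1, i2, i3, hA3⟩ : ∃ i1 i2 i3 : Fin n, ∀ i ∈ A.1, i = i1 ∨ i = i2 ∨ i = i3 := by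
    have hne : A.1.Nonempty := by
      rw [nonempty_iff_ne_empty]
      intro h0
      have h1 := hcb z0 (mem_closedBall_self hr.le)
      rw [h0] at h1
      have h2 := hsum z0
      rw [sum_eq_zero fun i _ => h1 i (notMem_empty i)] at h2
      exact zero_ne_one h2
    obtain ⟨B, hAB, hB⟩ : ∃ B : Finset (Fin n), A.1 ⊆ B ∧ B.card = A.1.card := ⟨A.1, Subset.rfl, rfl⟩
    have hc := A.2.2
    have hpos := hne.card_pos
    interval_cases h : A.1.card
    · obtain ⟨a, ha⟩ := card_eq_one.1 h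
      refine ⟨a, a, a, fun i hi => ?_⟩
      rw [ha, mem_singleton] at hi
      exact Or.inl hi
    · obtain ⟨a, b, -, ha⟩ := card_eq_two.1 h
      refine ⟨a, b, b, fun i hi => ?_⟩
      rw [ha, mem_insert, mem_singleton] at hi
      tauto
    · obtain ⟨a, b, d, -, -, -, ha⟩ := card_eq_three.1 h
      refine ⟨a, b, d, fun i hi => ?_⟩
      rw [ha, mem_insert, mem_insert, mem_singleton] at hi
      exact hi
  set c : closedBall z0 (ε / 2) → EuclideanSpace ℝ (Fin 3) :=
    fun z => WithLp.toLp 2 ![ψ z.1 i1, ψ z.1 i2, 0] with hc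
  have hψ' : Continuous fun z : closedBall z0 (ε / 2) => ψ z.1 := hψ.comp continuous_subtype_val
  have hcc : Continuous c := by
    refine (PiLp.continuous_toLp 2 _).comp ?_
    refine continuous_pi fun i => ?_
    fin_cases i
    · exact (continuous_apply i1).comp hψ'
    · exact (continuous_apply i2).comp hψ'
    · exact continuous_const
  have hci : Function.Injective c := by
    intro y y' hyy
    have e1 : ψ y.1 i1 = ψ y'.1 i1 := congrArg (fun v : EuclideanSpace ℝ (Fin 3) => v 0) hyy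
    have e2 : ψ y.1 i2 = ψ y'.1 i2 := congrArg (fun v : EuclideanSpace ℝ (Fin 3) => v 1) hyy
    have h1 : ∀ i, i ≠ i3 → ψ y.1 i = ψ y'.1 i := by
      intro i hi3
      by_cases hiA : i ∈ A.1
      · rcases hA3 i hiA with h | h | h
        · rw [h, e1]
        · rw [h, e2]
        · exact absurd h hi3
      · rw [hcb _ y.2 i hiA, hcb _ y'.2 i hiA]
    have h2 : ψ y.1 i3 = ψ y'.1 i3 := by
      have a1 := hsum y.1
      have a2 := hsum y'.1
      rw [← add_sum_erase _ _ (mem_univ i3)] at a1 a2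
      have a3 : ∑ i ∈ univ.erase i3, ψ y.1 i = ∑ i ∈ univ.erase i3, ψ y'.1 i :=
        sum_congr rfl fun i hi => h1 i (ne_of_mem_erase hi)
      linarith
    apply Subtype.ext
    apply hi
    funext i
    by_cases hi3 : i = i3
    · rw [hi3, h2]
    · exact h1 i hi3
  have h1 := iod z0 hr c hcc hci
  refine not_nhds 2 _ ?_ _ ?_ h1
  · rfl
  · rintro _ ⟨y, rfl⟩
    exact le_rfl

theorem t_BD3 : S_BD3 := by
  intro n K hM O hO hOA q hq hqb
  obtain ⟨U, hU, hqU, W, hW, ⟨e⟩⟩ := hM q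
  have hp0 : (e ⟨q, hqU⟩).1.1 0 = 0 := by
    by_contra h
    have h1 : 0 < (e ⟨q, hqU⟩).1.1 0 := lt_of_le_of_ne (e ⟨q, hqU⟩).1.2 (Ne.symm h)
    exact not_bd hU hW e ⟨q, hqU⟩ h1 hqb
  set p : Half := (e ⟨q, hqU⟩).1 with hp
  have hopen : IsOpen {y : Half | ∃ h : y ∈ W, (e.symm ⟨y, h⟩).1 ∈ O} := by
    have h1 : IsOpen {y : W | (e.symm y).1 ∈ O} :=
      hO.preimage (continuous_subtype_val.comp e.symm.continuous)
    have h2 := hW.isOpenMap_subtype_val _ h1
    convert h2 using 1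
    ext x
    constructor
    · rintro ⟨h, h3⟩
      exact ⟨⟨x, h⟩, h3, rfl⟩
    · rintro ⟨x, h3, rfl⟩
      exact ⟨x.2, h3⟩
  obtain ⟨ε, hε, hball⟩ := Metric.isOpen_iff.1 hopen p ⟨(e ⟨q, hqU⟩).2, by
    show (e.symm (e ⟨q, hqU⟩)).1 ∈ O
    rw [e.symm_apply_apply]
    exact hq⟩
  obtain ⟨δ, hδ, hemb⟩ : ∃ δ > 0, ∀ z : EuclideanSpace ℝ (Fin 3), ‖z‖ < δ → ‖emb z‖ < ε := by
    have h1 := Metric.continuous_iff.1 emb_cont 0 ε hε
    obtain ⟨δ, hδ, h2⟩ := h1
    refine ⟨δ, hδ, fun z hz => ?_⟩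
    have h3 := h2 z (by rwa [dist_zero_right])
    rwa [emb_zero, dist_zero_right] at h3
  set θ : EuclideanSpace ℝ (Fin 3) → EuclideanSpace ℝ (Fin 3) :=
    fun z => δ • ((Homeomorph.unitBall z : ball (0 : EuclideanSpace ℝ (Fin 3)) 1) :
      EuclideanSpace ℝ (Fin 3)) with hθ
  have hθc : Continuous θ := by
    rw [hθ]
    exact (continuous_subtype_val.comp Homeomorph.unitBall.continuous).const_smul δ
  have hθi : Function.Injective θ := by
    intro z z' h
    have h1 := smul_right_injective (EuclideanSpace ℝ (Fin 3)) hδ.ne' h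
    exact Homeomorph.unitBall.injective (Subtype.ext h1)
  have hθn : ∀ z, ‖θ z‖ < δ := by
    intro z
    have h1 := (Homeomorph.unitBall z : ball (0 : EuclideanSpace ℝ (Fin 3)) 1).2
    rw [mem_ball, dist_zero_right] at h1
    rw [hθ]
    show ‖δ • _‖ < δ
    rw [norm_smul, Real.norm_of_nonneg hδ.le]
    calc δ * _ < δ * 1 := mul_lt_mul_of_pos_left h1 hδ
      _ = δ := mul_one δ
  have hz0 : ∀ z, (p.1 + emb (θ z)) 0 = 0 := by
    intro z
    show p.1 0 + emb (θ z) 0 = 0
    rw [hp0, zero_add]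
    rfl
  set φ : EuclideanSpace ℝ (Fin 3) → Half := fun z => ⟨p.1 + emb (θ z), (hz0 z).ge⟩ with hφ
  have hφc : Continuous φ := by
    refine Continuous.subtype_mk ?_ _
    exact continuous_const.add (emb_cont.comp hθc)
  have hφi : Function.Injective φ := by
    intro z z' h
    have h1 : p.1 + emb (θ z) = p.1 + emb (θ z') := congrArg Subtype.val h
    exact hθi (emb_inj (add_left_cancel h1))
  have hφS : ∀ z, ∃ h : φ z ∈ W, (e.symm ⟨φ z, h⟩).1 ∈ O := by
    intro z
    apply hball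
    rw [mem_ball, Subtype.dist_eq]
    show dist (p.1 + emb (θ z)) p.1 < ε
    rw [dist_eq_norm, add_sub_cancel_left]
    exact hemb _ (hθn z)
  refine no_inj (K := K) (fun z => (e.symm ⟨φ z, (hφS z).1⟩).1.1) ?_ ?_ ?_ ?_
  · exact continuous_subtype_val.comp (continuous_subtype_val.comp (e.symm.continuous.comp
      (Continuous.subtype_mk hφc _)))
  · intro z z' h
    have h1 := e.symm.injective (Subtype.ext (Subtype.ext h))
    exact hφi (congrArg Subtype.val h1)
  · intro z
    exact (e.symm ⟨φ z, (hφS z).1⟩).1.2.2.1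
  · intro z
    refine hOA _ (hφS z).2 ?_
    refine bd_of hU e (e.symm ⟨φ z, (hφS z).1⟩) ?_
    rw [e.apply_symm_apply]
    exact hz0 z

end Pool.Agent.L0h66.LC
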